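import Pool.Agent.Y482.Ph.Defs
import Pool.Agent.Y288.CB.KB3
import Pool.Agent.Y105.CB.Rho
import Pool.Agent.W125.AX.KXR
import Pool.Agent.W290.AX.EMR
import Pool.Agent.W681.AX.EMS
import Pool.Agent.W613.AX.Win
import Pool.Agent.W991.AX.Si
import Pool.Agent.W762.AX.Lx
import Pool.Agent.W303.AX.UX1
import Pool.Agent.W67.AX.UX2
import Pool.Agent.W398.HT.RRD2

/-!
# The kernel `kh` at real points: expansion (task PH-KXR3)

Model: `Pool.Agent.W125.AX.KXR`.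
-/

set_option autoImplicit false

namespace Pool.Agent.Y304.PH

open Finset Filter Topology Metric
open Pool.Agent.W711.HT
open Pool.Agent.Y472
open Pool.Agent.W719.AX (UX EXY Rl ig S_EMR S_EMS S_WIN)
open Pool.Agent.Y482.Ph
open Pool.Agent.W125.AX (real_of_Rl open_Rc cauchy2 pow_exp cos_half arg_pos rr_real ss_real log_deriv
  log_deriv2)
open scoped Real

lemma win' : S_WIN := Pool.Agent.W613.AX.win Pool.Agent.W991.AX.si
  (Pool.Agent.W762.AX.lx Pool.Agent.W303.AX.uxbd) Pool.Agent.W303.AX.uxbd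
  (Pool.Agent.W67.AX.uxexp Pool.Agent.W303.AX.uxbd Pool.Agent.W303.AX.uxmul)

/-! ### The phase -/

/-- the phase -/
noncomputable def Th3 (p : ℂ × ℂ × ℂ) (δ : ℂ) : ℂ :=
  rrF δ p.1 + rrF δ p.2.1 + rrF (1 / 2 - δ) p.2.2 - 2 * ssF δ

/-- its derivative -/
noncomputable def Gd3 (p : ℂ × ℂ × ℂ) (δ : ℂ) : ℂ :=
  Complex.log (2 * Complex.cos p.1 + 2 * Complex.cos (2 * π * δ)) +
    Complex.log (2 * Complex.cos p.2.1 + 2 * Complex.cos (2 * π * δ)) -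
    Complex.log (2 * Complex.cos p.2.2 + 2 * Complex.cos (2 * π * (1 / 2 - δ))) -
    2 * Complex.log (2 * Complex.sin (π * δ))

/-- the second derivative -/
lemma Gd3_deriv {a b c x : ℝ} (ha : |a| < 1) (hb : |b| < 1) (hc : |c| < 1) (h1 : 3 / 16 ≤ x)
    (h2 : x ≤ 5 / 16) : (deriv (Gd3 ((a : ℂ), (b : ℂ), (c : ℂ))) (x : ℂ)).re ≤ -1 := by
  have hpi := Real.pi_pos
  have d1 := log_deriv ha h1 h2
  have d2 := log_deriv hb h1 h2
  have d3 := log_deriv2 h1 h2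
  have d4 := log_deriv hc (x := 1 / 2 - x) (by linarith) (by linarith)
  have d6 : HasDerivAt (fun δ : ℂ => 1 / 2 - δ) (-1) (x : ℂ) := by
    exact (hasDerivAt_id' (x : ℂ)).const_sub (1 / 2)
  have e0 : ((1 / 2 - x : ℝ) : ℂ) = 1 / 2 - (x : ℂ) := by push_cast; ring
  rw [e0] at d4
  have d5 := d4.comp (x : ℂ) d6
  have d := ((d1.add d2).sub d5).sub (d3.const_mul 2)
  have hd : deriv (Gd3 ((a : ℂ), (b : ℂ), (c : ℂ))) (x : ℂ) = _ := d.deriv
  rw [hd]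
  have p1 := arg_pos h1 h2 ha zero_le_one le_rfl
  have p2 := arg_pos h1 h2 hb zero_le_one le_rfl
  have p2' := arg_pos (δ := 1 / 2 - x) (by linarith) (by linarith) hc zero_le_one le_rfl
  rw [mul_one] at p1 p2 p2'
  have p3 : 0 < Real.sin (π * x) := by
    apply Real.sin_pos_of_pos_of_lt_pi
    · positivity
    · nlinarith
  have p4 : 0 < Real.sin (2 * π * x) := by
    apply Real.sin_pos_of_pos_of_lt_pi
    · positivity
    · nlinarith
  have p4' : 0 < Real.sin (2 * π * (1 / 2 - x)) := by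
    apply Real.sin_pos_of_pos_of_lt_pi
    · nlinarith
    · nlinarith
  have p5 : 1 / 2 ≤ Real.cos (π * x) := by
    rw [← Real.cos_pi_div_three]
    apply Real.cos_le_cos_of_nonneg_of_le_pi (by positivity) (by linarith)
    nlinarith
  have p6 : Real.sin (π * x) ≤ 1 := Real.sin_le_one _
  have q1 : -(4 * π * Real.sin (2 * π * x)) / (2 * Real.cos a + 2 * Real.cos (2 * π * x)) ≤ 0 :=
    div_nonpos_of_nonpos_of_nonneg (by nlinarith [mul_pos hpi p4]) p1.le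
  have q2 : -(4 * π * Real.sin (2 * π * x)) / (2 * Real.cos b + 2 * Real.cos (2 * π * x)) ≤ 0 :=
    div_nonpos_of_nonpos_of_nonneg (by nlinarith [mul_pos hpi p4]) p2.le
  have q2' : -(4 * π * Real.sin (2 * π * (1 / 2 - x))) /
      (2 * Real.cos c + 2 * Real.cos (2 * π * (1 / 2 - x))) ≤ 0 :=
    div_nonpos_of_nonpos_of_nonneg (by nlinarith [mul_pos hpi p4']) p2'.le
  have q3 : π / 2 ≤ π * Real.cos (π * x) / Real.sin (π * x) := by
    rw [le_div_iff₀ p3]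
    have r1 : π / 2 * Real.sin (π * x) ≤ π / 2 * 1 := mul_le_mul_of_nonneg_left p6 (by positivity)
    have r2 : π * (1 / 2) ≤ π * Real.cos (π * x) := mul_le_mul_of_nonneg_left p5 hpi.le
    linarith
  have e : ∀ A B C D : ℝ, ((A : ℂ) + (B : ℂ) - (C : ℂ) * -1 - 2 * (D : ℂ)) =
      ((A + B + C - 2 * D : ℝ) : ℂ) := by intro A B C D; push_cast; ring
  rw [e, Complex.ofReal_re]
  nlinarith [Real.pi_gt_three]

/-- the critical point is real -/
lemma dl_real3 {ρ c C : ℝ} {s dl : ℂ → ℂ → ℂ → ℂ} (H : SD3 ρ c C s dl) {a b e : ℝ}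
    (ha : |a| < ρ) (hb : |b| < ρ) (he : |e| < ρ) : ∃ x : ℝ, dl a b e = x ∧ 3 / 16 ≤ x ∧
      x ≤ 5 / 16 := by
  have hpi := Real.pi_pos
  have hρ := H.hρ
  have hm : ∀ {a : ℝ}, |a| < ρ → (a : ℂ) ∈ Rc ρ ρ := by
    intro a ha
    unfold Rc
    simp only [Set.mem_setOf_eq, Complex.ofReal_re, Complex.ofReal_im, abs_zero]
    exact ⟨ha, hρ.1⟩
  have h1 := (H.dclose a (hm ha) b (hm hb) e (hm he)).1
  have h2 := H.dcos a (hm ha) b (hm hb) e (hm he)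
  set z := dl a b e with hz
  have h3 : |z.re - 1 / 4| ≤ 1 / 16 := by
    have h := Complex.abs_re_le_norm (z - 1 / 4)
    have e : (z - 1 / 4).re = z.re - 1 / 4 := by
      rw [Complex.sub_re]
      norm_num
    rw [e] at h
    linarith
  obtain ⟨h4, h5⟩ := abs_le.1 h3
  have h6 : Complex.cos (2 * π * z) =
      (((Real.cos e - Real.cos a * Real.cos b) /
        (1 + Real.cos e + Real.cos a + Real.cos b) : ℝ) : ℂ) := by
    rw [h2]
    push_cast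
    rfl
  have h7 : (2 * π * z : ℂ) = ((2 * π * z.re : ℝ) : ℂ) + ((2 * π * z.im : ℝ) : ℂ) * Complex.I := by
    conv_lhs => rw [← Complex.re_add_im z]
    push_cast
    ring
  have h8 : Real.sin (2 * π * z.re) * Real.sinh (2 * π * z.im) = 0 := by
    have h9 := congrArg Complex.im h6
    rw [h7, Complex.cos_add_mul_I, ← Complex.ofReal_cos, ← Complex.ofReal_cosh,
      ← Complex.ofReal_sin, ← Complex.ofReal_sinh, Complex.ofReal_im] at h9
    simp only [Complex.sub_im, Complex.mul_im, Complex.mul_re, Complex.ofReal_re,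
      Complex.ofReal_im, Complex.I_re, Complex.I_im] at h9
    linarith
  have h10 : 0 < Real.sin (2 * π * z.re) := by
    apply Real.sin_pos_of_pos_of_lt_pi
    · nlinarith
    · nlinarith
  have h11 : z.im = 0 := by
    rcases mul_eq_zero.1 h8 with h | h
    · linarith
    · rw [Real.sinh_eq_zero] at h
      rcases mul_eq_zero.1 h with h | h
      · linarith
      · exact h
  refine ⟨z.re, ?_, by linarith, by linarith⟩
  apply Complex.ext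
  · rw [Complex.ofReal_re]
  · rw [Complex.ofReal_im]; exact h11

/-- continuity at the origin -/
lemma cont_zero3 {ρ c C : ℝ} {s dl : ℂ → ℂ → ℂ → ℂ} (H : SD3 ρ c C s dl) {ε : ℝ} (hε : 0 < ε) :
    ∃ r : ℝ, 0 < r ∧ ∀ z z' z'' : ℂ, ‖z‖ < r → ‖z'‖ < r → ‖z''‖ < r →
      ‖dl z z' z'' - 1 / 4‖ < ε ∧ ‖s z z' z'' - ((2 * bet : ℝ) : ℂ)‖ < ε := by
  have hρ := H.hρ
  have hO : IsOpen (Rc ρ ρ ×ˢ Rc ρ ρ ×ˢ Rc ρ ρ) :=
    (open_Rc _ _).prod ((open_Rc _ _).prod (open_Rc _ _))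
  have h0 : ((0 : ℂ), (0 : ℂ), (0 : ℂ)) ∈ Rc ρ ρ ×ˢ Rc ρ ρ ×ˢ Rc ρ ρ := by
    have : (0 : ℂ) ∈ Rc ρ ρ := by
      constructor
      · simpa using hρ.1
      · simpa using hρ.1
    exact ⟨this, this, this⟩
  have c1 := (H.dan.differentiableAt (hO.mem_nhds h0)).continuousAt
  have c2 := (H.san.differentiableAt (hO.mem_nhds h0)).continuousAt
  obtain ⟨r1, hr1, k1⟩ := Metric.continuousAt_iff.1 c1 ε hε
  obtain ⟨r2, hr2, k2⟩ := Metric.continuousAt_iff.1 c2 ε hε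
  refine ⟨min r1 r2, lt_min hr1 hr2, fun z z' z'' hz hz' hz'' => ?_⟩
  have hd : ∀ r, min r1 r2 ≤ r → dist (z, z', z'') ((0 : ℂ), (0 : ℂ), (0 : ℂ)) < r := by
    intro r hr
    rw [Prod.dist_eq, Prod.dist_eq, dist_zero_right, dist_zero_right, dist_zero_right]
    exact max_lt (hz.trans_le hr) (max_lt (hz'.trans_le hr) (hz''.trans_le hr))
  have g1 := k1 (hd r1 (min_le_left _ _))
  have g2 := k2 (hd r2 (min_le_right _ _))
  simp only at g1 g2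
  rw [H.dl0, dist_eq_norm] at g1
  rw [H.zero, dist_eq_norm] at g2
  exact ⟨g1, g2⟩

/-! ### The terms -/

/-- the terms of the kernel -/
noncomputable def tk (N d : ℕ) (p : ℂ × ℂ × ℂ) : ℂ :=
  Rp N d p.1 * Rp N d p.2.1 * Tg N d p.2.2 / (Sd N d : ℂ) ^ 2

/-- the summand, from the expansions of its factors -/
lemma T_eq3 {N : ℕ} (hN : 1 ≤ N) {R R' T S2 rr rr' rt ss U U' W V e1 e2 et e3 : ℂ}
    (h1 : R = Complex.exp (N * rr + U + e1)) (h2 : R' = Complex.exp (N * rr' + U' + e2))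
    (ht : T = Complex.exp (N * rt + W + et))
    (h3 : S2 = N * Complex.exp (2 * N * ss + V + e3)) :
    (N : ℂ) * (R * R' * T / S2) =
      Complex.exp (N * (rr + rr' + rt - 2 * ss) + (U + U' + W - V) + (e1 + e2 + et - e3)) := by
  have hN0 : (N : ℂ) ≠ 0 := by exact_mod_cast (by omega : N ≠ 0)
  have e5 : Complex.exp (N * (rr + rr' + rt - 2 * ss) + (U + U' + W - V) + (e1 + e2 + et - e3)) *
      Complex.exp (2 * N * ss + V + e3) =
      Complex.exp (N * rr + U + e1) * Complex.exp (N * rr' + U' + e2) *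
        Complex.exp (N * rt + W + et) := by
    rw [← Complex.exp_add, ← Complex.exp_add, ← Complex.exp_add]
    congr 1
    ring
  have hE : Complex.exp (2 * N * ss + V + e3) ≠ 0 := Complex.exp_ne_zero _
  rw [h3, h1, h2, ht, ← e5]
  field_simp

/-- the window does not see the end of the sum -/
lemma filter_eq {N : ℕ} (hN : 1 ≤ N) {r : ℝ} (hr : r ≤ 1 / 16) :
    (range ((N - 1) / 2 + 1)).filter (fun d : ℕ => |(d : ℝ) / N - 1 / 4| < r) =
      (range N).filter (fun d : ℕ => |(d : ℝ) / N - 1 / 4| < r) := by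
  have hN0 : (0 : ℝ) < N := by exact_mod_cast hN
  ext d
  simp only [mem_filter, mem_range]
  constructor
  · rintro ⟨h1, h2⟩
    exact ⟨by omega, h2⟩
  · rintro ⟨_, h2⟩
    refine ⟨?_, h2⟩
    have h3 := (abs_lt.1 (h2.trans_le hr)).2
    have h4 : (d : ℝ) / N < 5 / 16 := by linarith
    rw [div_lt_iff₀ hN0] at h4
    have h5 : (16 * d : ℝ) < 5 * N := by linarith
    have h6 : 16 * d < 5 * N := by exact_mod_cast h5
    omega

/-- the decomposition of the kernel -/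
lemma kx_split3 (s : ℂ → ℂ → ℂ → ℂ) {N : ℕ} (hN : 1 ≤ N) (p : ℂ × ℂ × ℂ) (q : ℂ)
    (hq : s p.1 p.2.1 p.2.2 = q) {r : ℝ} (hr : r ≤ 1 / 16) : kx3 s N p =
    ((Real.sqrt N : ℝ) : ℂ)⁻¹ * Complex.exp (-(N * q)) *
      ∑ d ∈ (range N).filter (fun d : ℕ => |(d : ℝ) / N - 1 / 4| < r), (N : ℂ) * tk N d p +
    (Real.sqrt N : ℂ) * Complex.exp (-(N * q)) *
      ∑ d ∈ (range ((N - 1) / 2 + 1)).filter (fun d : ℕ => ¬ |(d : ℝ) / N - 1 / 4| < r),
        tk N d p := by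
  have hN0 : (0 : ℝ) < N := by exact_mod_cast hN
  unfold kx3 kh
  rw [hq, ← sum_filter_add_sum_filter_not (range ((N - 1) / 2 + 1))
    (fun d : ℕ => |(d : ℝ) / N - 1 / 4| < r), mul_add, filter_eq hN hr]
  unfold tk
  congr 1
  rw [← mul_sum]
  have e1 : (Real.sqrt N : ℂ) = ((Real.sqrt N : ℝ) : ℂ)⁻¹ * (N : ℂ) := by
    have h1 : Real.sqrt N = (Real.sqrt N)⁻¹ * (N : ℝ) := by
      have h2 := Real.mul_self_sqrt hN0.le
      have h3 : 0 < Real.sqrt N := Real.sqrt_pos.2 hN0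
      rw [eq_inv_mul_iff_mul_eq₀ h3.ne']
      exact h2
    calc (Real.sqrt N : ℂ) = (((Real.sqrt N)⁻¹ * (N : ℝ) : ℝ) : ℂ) := congrArg _ h1
      _ = ((Real.sqrt N : ℝ) : ℂ)⁻¹ * (N : ℂ) := by push_cast; rfl
  conv_lhs => rw [e1]
  ring

/-- bound of the far part of the kernel -/
lemma kx_far3 {κ : ℝ} {N : ℕ} (hN : 1 ≤ N) {q : ℂ} {r : ℝ} (hq : 2 * bet - κ ≤ q.re)
    (f : ℕ → ℂ) (hf : ∀ d : ℕ, d ≤ (N - 1) / 2 → ¬ |(d : ℝ) / N - 1 / 4| < r →
      ‖f d‖ ≤ Real.exp (N * (2 * bet - 2 * κ))) :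
    ‖(Real.sqrt N : ℂ) * Complex.exp (-(N * q)) *
      ∑ d ∈ (range ((N - 1) / 2 + 1)).filter (fun d : ℕ => ¬ |(d : ℝ) / N - 1 / 4| < r), f d‖ ≤
      (N : ℝ) ^ 3 * Real.exp (-(N * κ)) := by
  have hN0 : (0 : ℝ) < N := by exact_mod_cast hN
  have hN1 : (1 : ℝ) ≤ N := by exact_mod_cast hN
  have h1 : ‖∑ d ∈ (range ((N - 1) / 2 + 1)).filter
      (fun d : ℕ => ¬ |(d : ℝ) / N - 1 / 4| < r), f d‖ ≤ N * Real.exp (N * (2 * bet - 2 * κ)) := by
    refine (norm_sum_le _ _).trans ?_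
    have h2 : ∑ d ∈ (range ((N - 1) / 2 + 1)).filter (fun d : ℕ => ¬ |(d : ℝ) / N - 1 / 4| < r),
        ‖f d‖ ≤ (((range ((N - 1) / 2 + 1)).filter
          (fun d : ℕ => ¬ |(d : ℝ) / N - 1 / 4| < r)).card : ℝ) *
          Real.exp (N * (2 * bet - 2 * κ)) := by
      rw [← nsmul_eq_mul]
      refine sum_le_card_nsmul _ _ _ fun d hd => ?_
      rw [mem_filter, mem_range] at hd
      exact hf d (by omega) hd.2
    refine h2.trans (mul_le_mul_of_nonneg_right ?_ (Real.exp_pos _).le)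
    have : ((range ((N - 1) / 2 + 1)).filter
        (fun d : ℕ => ¬ |(d : ℝ) / N - 1 / 4| < r)).card ≤ N := by
      refine (card_filter_le _ _).trans ?_
      rw [card_range]
      omega
    exact_mod_cast this
  have h3 : Real.sqrt N ≤ (N : ℝ) ^ 2 := by
    have h4 := Real.sq_sqrt hN0.le
    have h5 : 1 ≤ Real.sqrt N := by
      rw [show (1 : ℝ) = Real.sqrt 1 by simp]
      exact Real.sqrt_le_sqrt hN1
    calc Real.sqrt N ≤ (Real.sqrt N) ^ 4 := le_self_pow₀ h5 (by norm_num)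
      _ = (Real.sqrt N ^ 2) ^ 2 := by ring
      _ = (N : ℝ) ^ 2 := by rw [h4]
  have h6 : ‖Complex.exp (-(N * q))‖ ≤ Real.exp (-(N * (2 * bet - κ))) := by
    rw [Complex.norm_exp]
    apply Real.exp_le_exp.2
    have : (-(N * q) : ℂ).re = -(N * q.re) := by
      rw [Complex.neg_re, ← Complex.ofReal_natCast, Complex.re_ofReal_mul]
    rw [this]
    have := mul_le_mul_of_nonneg_left hq hN0.le
    linarith
  rw [norm_mul, norm_mul, Complex.norm_real, Real.norm_eq_abs, abs_of_nonneg (by positivity)]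
  calc Real.sqrt N * ‖Complex.exp (-(N * q))‖ * _ ≤
      (N : ℝ) ^ 2 * Real.exp (-(N * (2 * bet - κ))) * (N * Real.exp (N * (2 * bet - 2 * κ))) := by
        gcongr
    _ = (N : ℝ) ^ 3 * (Real.exp (-(N * (2 * bet - κ))) * Real.exp (N * (2 * bet - 2 * κ))) := by
        ring
    _ = _ := by
        rw [← Real.exp_add]
        congr 2
        ring

/-- the far part -/
lemma far_part3 (h : S_KB3) {r : ℝ} (hr : 0 < r) : ∃ κ : ℝ, 0 < κ ∧ ∀ᶠ N : ℕ in atTop,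
    ∀ a b c : ℝ, |a| ≤ π → |b| ≤ π → |c| ≤ π → ∀ d : ℕ, d ≤ (N - 1) / 2 →
      ¬ |(d : ℝ) / N - 1 / 4| < r →
    ‖tk N d ((a : ℂ), (b : ℂ), (c : ℂ))‖ ≤ Real.exp (N * (2 * bet - 2 * κ)) := by
  obtain ⟨κ, hκ, τ, hτ, h⟩ := h.2 r hr
  refine ⟨κ / 2, by positivity, ?_⟩
  filter_upwards [h] with N hN a b c ha hb hc d hd hdr
  have k := hN d hd (not_lt.1 hdr) a b c (by simpa using ha) (by simpa using hτ.le)
    (by simpa using hb) (by simpa using hτ.le) (by simpa using hc) (by simpa using hτ.le)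
  rw [show 2 * (κ / 2) = κ by ring]
  exact k

/-! ### The theorem -/

theorem kxr3 : S_KXR3 := by
  intro h0
  have h1 : S_EMR := Pool.Agent.W290.AX.emr
  have h2 : S_EMS := Pool.Agent.W681.AX.ems
  have h3 : S_WIN := win'
  have h4 : S_RRD := Pool.Agent.W398.HT.main
  have hKB : S_KB3 := Pool.Agent.Y288.CB.kb3 Pool.Agent.Y288.CB.tb0 Pool.Agent.Y105.CB.rho
  intro ρ c C s dl H
  obtain ⟨ρT, hρT, hρT', t, t1, t2, t3⟩ := h0
  obtain ⟨ρR, hρR, hρR', u, u1, u2, u3⟩ := h1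
  obtain ⟨ρS, hρS, hρS', v, v1, v2, v3⟩ := h2
  obtain ⟨ρD, hρD, dR, dS, dd, -⟩ := h4
  have hρ := H.hρ
  have hpi := Real.pi_gt_three
  obtain ⟨r0, hr0, r16, rR, rS, rD, rT⟩ : ∃ r0 : ℝ, 0 < r0 ∧ r0 ≤ 1 / 16 ∧ r0 ≤ ρR ∧ r0 ≤ ρS ∧
      r0 ≤ ρD / 2 ∧ r0 ≤ ρT :=
    ⟨min (min (min ρR ρS) (min (ρD / 2) (1 / 16))) ρT, by positivity,
      (min_le_left _ _).trans ((min_le_right _ _).trans (min_le_right _ _)),
      (min_le_left _ _).trans ((min_le_left _ _).trans (min_le_left _ _)),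
      (min_le_left _ _).trans ((min_le_left _ _).trans (min_le_right _ _)),
      (min_le_left _ _).trans ((min_le_right _ _).trans (min_le_left _ _)), min_le_right _ _⟩
  obtain ⟨rc, hrc, hcont⟩ := cont_zero3 H (show 0 < r0 / 4 by positivity)
  obtain ⟨ρ1, hρ1, g1, g2, g3⟩ : ∃ ρ1 : ℝ, 0 < ρ1 ∧ ρ1 ≤ ρ ∧ ρ1 ≤ r0 ∧ ρ1 ≤ rc :=
    ⟨min ρ (min r0 rc), lt_min hρ.1 (lt_min hr0 hrc), min_le_left _ _,
      (min_le_right _ _).trans (min_le_left _ _), (min_le_right _ _).trans (min_le_right _ _)⟩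
  -- bounds of the phase
  obtain ⟨BR, hBR⟩ := ((isCompact_closedBall (1 / 4 : ℂ) (ρD / 2)).prod
    (isCompact_closedBall (0 : ℂ) (ρD / 2))).exists_bound_of_continuousOn
    (dR.continuousOn.mono (Set.prod_mono (closedBall_subset_ball (by linarith))
      (closedBall_subset_ball (by linarith))))
  obtain ⟨BS, hBS⟩ := (isCompact_closedBall (1 / 4 : ℂ) (ρD / 2)).exists_bound_of_continuousOn
    (dS.continuousOn.mono (closedBall_subset_ball (by linarith)))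
  obtain ⟨S, hS⟩ : ∃ S : Set (ℂ × ℂ × ℂ), S = Rl ρ1 ×ˢ Rl ρ1 ×ˢ Rl ρ1 := ⟨_, rfl⟩
  have hmem : ∀ p ∈ S, (p.1 = ((p.1.re : ℝ) : ℂ) ∧ |p.1.re| < ρ1 ∧ ‖p.1‖ < ρ1) ∧
      (p.2.1 = ((p.2.1.re : ℝ) : ℂ) ∧ |p.2.1.re| < ρ1 ∧ ‖p.2.1‖ < ρ1) ∧
      (p.2.2 = ((p.2.2.re : ℝ) : ℂ) ∧ |p.2.2.re| < ρ1 ∧ ‖p.2.2‖ < ρ1) := by
    intro p hp
    rw [hS] at hp
    exact ⟨real_of_Rl hp.1, real_of_Rl hp.2.1, real_of_Rl hp.2.2⟩
  have hball : ∀ (r : ℝ), r0 ≤ r → ∀ z : ℂ, ‖z‖ < ρ1 → z ∈ ball (0 : ℂ) r := by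
    intro r hr z hz
    rw [mem_ball_zero_iff]
    linarith
  have hrefl : ∀ (r : ℝ) (δ : ℂ), δ ∈ ball (1 / 4 : ℂ) r → 1 / 2 - δ ∈ ball (1 / 4 : ℂ) r := by
    intro r δ hδ
    rw [mem_ball, dist_eq_norm] at hδ ⊢
    rw [show (1 / 2 - δ - 1 / 4 : ℂ) = -(δ - 1 / 4) by ring, norm_neg]
    exact hδ
  have hder : ∀ p ∈ S, ∀ δ ∈ ball (1 / 4 : ℂ) ρD, HasDerivAt (Th3 p) (Gd3 p δ) δ := by
    intro p hp δ hδ
    obtain ⟨⟨a1, a2, a3⟩, ⟨b1, b2, b3⟩, c1, c2, c3⟩ := hmem p hp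
    have k1 := (dd δ hδ p.1 (hball ρD (by linarith) _ a3)).1
    have k2 := (dd δ hδ p.2.1 (hball ρD (by linarith) _ b3)).1
    have k3 := (dd δ hδ p.2.1 (hball ρD (by linarith) _ b3)).2.2
    have k4 := (dd (1 / 2 - δ) (hrefl _ _ hδ) p.2.2 (hball ρD (by linarith) _ c3)).1
    have k5 : HasDerivAt (fun δ : ℂ => 1 / 2 - δ) (-1) δ := by
      exact (hasDerivAt_id' δ).const_sub (1 / 2)
    have k6 := k4.comp δ k5
    have k := ((k1.add k2).add k6).sub (k3.const_mul 2)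
    refine HasDerivAt.congr_deriv k ?_
    unfold Gd3
    ring
  have hrb : ball (1 / 4 : ℂ) r0 ⊆ ball (1 / 4) ρD := ball_subset_ball (by linarith)
  have hThd : ∀ p ∈ S, DifferentiableOn ℂ (Th3 p) (ball (1 / 4) r0) := fun p hp δ hδ =>
    ((hder p hp δ (hrb hδ)).differentiableAt).differentiableWithinAt
  have hThB : ∀ p ∈ S, ∀ δ ∈ ball (1 / 4 : ℂ) r0, ‖Th3 p δ‖ ≤ BR + BR + BR + 2 * BS := by
    intro p hp δ hδ
    obtain ⟨⟨a1, a2, a3⟩, ⟨b1, b2, b3⟩, c1, c2, c3⟩ := hmem p hp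
    have hδ' : δ ∈ closedBall (1 / 4 : ℂ) (ρD / 2) :=
      closedBall_subset_closedBall rD (ball_subset_closedBall hδ)
    have hδ'' : 1 / 2 - δ ∈ closedBall (1 / 4 : ℂ) (ρD / 2) :=
      closedBall_subset_closedBall rD (ball_subset_closedBall (hrefl _ _ hδ))
    have m1 : p.1 ∈ closedBall (0 : ℂ) (ρD / 2) := by
      rw [mem_closedBall_zero_iff]; linarith
    have m2 : p.2.1 ∈ closedBall (0 : ℂ) (ρD / 2) := by
      rw [mem_closedBall_zero_iff]; linarith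
    have m3 : p.2.2 ∈ closedBall (0 : ℂ) (ρD / 2) := by
      rw [mem_closedBall_zero_iff]; linarith
    have k1 := hBR (δ, p.1) ⟨hδ', m1⟩
    have k2 := hBR (δ, p.2.1) ⟨hδ', m2⟩
    have k4 := hBR (1 / 2 - δ, p.2.2) ⟨hδ'', m3⟩
    have k3 := hBS δ hδ'
    simp only at k1 k2 k4
    unfold Th3
    calc ‖rrF δ p.1 + rrF δ p.2.1 + rrF (1 / 2 - δ) p.2.2 - 2 * ssF δ‖ ≤
          ‖rrF δ p.1 + rrF δ p.2.1 + rrF (1 / 2 - δ) p.2.2‖ + ‖2 * ssF δ‖ :=
          norm_sub_le _ _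
      _ ≤ ‖rrF δ p.1‖ + ‖rrF δ p.2.1‖ + ‖rrF (1 / 2 - δ) p.2.2‖ + 2 * ‖ssF δ‖ := by
          refine add_le_add ((norm_add_le _ _).trans (add_le_add (norm_add_le _ _) le_rfl)) ?_
          rw [norm_mul]
          norm_num
      _ ≤ _ := by linarith
  -- the critical point
  obtain ⟨δs, hδs⟩ : ∃ δs : ℂ × ℂ × ℂ → ℝ, δs = fun p => (dl p.1 p.2.1 p.2.2).re := ⟨_, rfl⟩
  have hRl : ∀ {z : ℂ}, |z.re| < ρ1 → z = ((z.re : ℝ) : ℂ) → z ∈ Rc ρ ρ := by
    intro z h1 h2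
    refine ⟨h1.trans_le g1, ?_⟩
    have : z.im = 0 := by rw [h2, Complex.ofReal_im]
    rw [this, abs_zero]
    exact hρ.1
  have hcrit : ∀ p ∈ S, dl p.1 p.2.1 p.2.2 = (δs p : ℂ) ∧ |δs p - 1 / 4| ≤ r0 / 4 ∧
      Gd3 p (δs p) = 0 := by
    intro p hp
    obtain ⟨⟨a1, a2, a3⟩, ⟨b1, b2, b3⟩, c1, c2, c3⟩ := hmem p hp
    obtain ⟨x, x1, x2, x3⟩ := dl_real3 H (a2.trans_le g1) (b2.trans_le g1) (c2.trans_le g1)
    rw [← a1, ← b1, ← c1] at x1
    have hx : δs p = x := by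
      rw [hδs]
      simp only
      rw [x1, Complex.ofReal_re]
    have k := (hcont p.1 p.2.1 p.2.2 (a3.trans_le g3) (b3.trans_le g3) (c3.trans_le g3)).1
    rw [hx]
    refine ⟨x1, ?_, ?_⟩
    · rw [x1] at k
      have e : ((x : ℂ) - 1 / 4) = ((x - 1 / 4 : ℝ) : ℂ) := by push_cast; rfl
      rw [e, Complex.norm_real, Real.norm_eq_abs] at k
      exact k.le
    · have k := H.dcrit p.1 (hRl a2 a1) p.2.1 (hRl b2 b1) p.2.2 (hRl c2 c1)
      rw [x1] at k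
      unfold Gd3
      have e : (2 * π * (1 / 2 - (x : ℂ)) : ℂ) = π - 2 * π * x := by ring
      rw [e, Complex.cos_pi_sub, k]
      ring_nf
  have hdd : ∀ p ∈ S, ∀ x : ℝ, |x - 1 / 4| < r0 →
      (deriv (deriv (Th3 p)) (x : ℂ)).re ≤ -1 := by
    intro p hp x hx
    obtain ⟨⟨a1, a2, a3⟩, ⟨b1, b2, b3⟩, c1, c2, c3⟩ := hmem p hp
    obtain ⟨x1, x2⟩ := abs_lt.1 hx
    have hxb : (x : ℂ) ∈ ball (1 / 4 : ℂ) ρD := by
      apply hrb
      rw [mem_ball, dist_eq_norm]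
      have e : ((x : ℂ) - 1 / 4) = ((x - 1 / 4 : ℝ) : ℂ) := by push_cast; rfl
      rw [e, Complex.norm_real, Real.norm_eq_abs]
      exact hx
    have e1 : deriv (Th3 p) =ᶠ[𝓝 (x : ℂ)] Gd3 p :=
      Filter.eventuallyEq_of_mem (isOpen_ball.mem_nhds hxb) fun y hy => (hder p hp y hy).deriv
    rw [e1.deriv_eq]
    have e2 : Gd3 p = Gd3 (((p.1.re : ℝ) : ℂ), ((p.2.1.re : ℝ) : ℂ), ((p.2.2.re : ℝ) : ℂ)) := by
      congr 1
      exact Prod.ext a1 (Prod.ext b1 c1)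
    rw [e2]
    exact Gd3_deriv (by linarith) (by linarith) (by linarith) (by linarith) (by linarith)
  -- the window
  obtain ⟨w, hw⟩ : ∃ w : ℕ → (ℂ × ℂ × ℂ) × ℂ → ℂ, w = fun k x =>
    u k x.2 x.1.1 + u k x.2 x.1.2.1 + t k x.2 x.1.2.2 - v k x.2 := ⟨_, rfl⟩
  obtain ⟨T, hT⟩ : ∃ T : ℕ → ℕ → ℂ × ℂ × ℂ → ℂ, T = fun (N d : ℕ) (p : ℂ × ℂ × ℂ) =>
    (N : ℂ) * tk N d p := ⟨_, rfl⟩
  have hwB : ∀ k, ∃ B' : ℝ, ∀ p ∈ S, ∀ δ ∈ ball (1 / 4 : ℂ) r0, ‖w k (p, δ)‖ ≤ B' := by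
    intro k
    obtain ⟨B1, hB1⟩ := u2 k
    obtain ⟨B2, hB2⟩ := v2 k
    obtain ⟨B3, hB3⟩ := t2 k
    refine ⟨B1 + B1 + B3 + B2, fun p hp δ hδ => ?_⟩
    obtain ⟨⟨a1, a2, a3⟩, ⟨b1, b2, b3⟩, c1, c2, c3⟩ := hmem p hp
    have k1 := hB1 δ (ball_subset_ball rR hδ) p.1 (hball _ rR _ a3)
    have k2 := hB1 δ (ball_subset_ball rR hδ) p.2.1 (hball _ rR _ b3)
    have k4 := hB3 δ (ball_subset_ball rT hδ) p.2.2 (hball _ rT _ c3)
    have k3 := hB2 δ (ball_subset_ball rS hδ)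
    rw [hw]
    simp only
    calc ‖u k δ p.1 + u k δ p.2.1 + t k δ p.2.2 - v k δ‖ ≤
          ‖u k δ p.1 + u k δ p.2.1 + t k δ p.2.2‖ + ‖v k δ‖ := norm_sub_le _ _
      _ ≤ ‖u k δ p.1‖ + ‖u k δ p.2.1‖ + ‖t k δ p.2.2‖ + ‖v k δ‖ :=
          add_le_add ((norm_add_le _ _).trans (add_le_add (norm_add_le _ _) le_rfl)) le_rfl
      _ ≤ _ := by linarith
  obtain ⟨r, hr, hrr, A, hA, hA0⟩ := h3 r0 1 (BR + BR + BR + 2 * BS) hr0 r16 one_pos
    (ℂ × ℂ × ℂ) S Th3 δs w T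
    (by
      intro p hp
      obtain ⟨⟨a1, a2, a3⟩, ⟨b1, b2, b3⟩, c1, c2, c3⟩ := hmem p hp
      obtain ⟨d1, d2, d3⟩ := hcrit p hp
      refine ⟨hThd p hp, hThB p hp, d2, ?_, ?_, hdd p hp⟩
      · have hxb : ((δs p : ℝ) : ℂ) ∈ ball (1 / 4 : ℂ) ρD := by
          apply hrb
          rw [mem_ball, dist_eq_norm]
          have e : (((δs p : ℝ) : ℂ) - 1 / 4) = ((δs p - 1 / 4 : ℝ) : ℂ) := by push_cast; rfl
          rw [e, Complex.norm_real, Real.norm_eq_abs]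
          linarith
        rw [(hder p hp _ hxb).deriv]
        exact d3
      · intro x hx
        obtain ⟨x1, x2⟩ := abs_lt.1 hx
        unfold Th3
        have k1 := rr_real (δ := x) (ψ := p.1.re) (by linarith) (by linarith) (by linarith)
        have k2 := rr_real (δ := x) (ψ := p.2.1.re) (by linarith) (by linarith) (by linarith)
        have k4 := rr_real (δ := 1 / 2 - x) (ψ := p.2.2.re) (by linarith) (by linarith)
          (by linarith)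
        have k3 := ss_real (δ := x) (by linarith) (by linarith)
        rw [← a1] at k1
        rw [← b1] at k2
        rw [← c1] at k4
        have e0 : ((1 / 2 - x : ℝ) : ℂ) = 1 / 2 - (x : ℂ) := by push_cast; ring
        rw [e0] at k4
        rw [Complex.sub_im, Complex.add_im, Complex.add_im, k1, k2, k4, Complex.mul_im, k3]
        simp)
    (by
      intro k p hp
      obtain ⟨⟨a1, a2, a3⟩, ⟨b1, b2, b3⟩, c1, c2, c3⟩ := hmem p hp
      rw [hw]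
      exact ((((u1 k p.1 (hball _ rR _ a3)).mono (ball_subset_ball rR)).add
        ((u1 k p.2.1 (hball _ rR _ b3)).mono (ball_subset_ball rR))).add
        ((t1 k p.2.2 (hball _ rT _ c3)).mono (ball_subset_ball rT))).sub
        ((v1 k).mono (ball_subset_ball rS)))
    hwB
    (by
      intro K
      obtain ⟨Cu, hu⟩ := u3 K
      obtain ⟨Cv, hv⟩ := v3 K
      obtain ⟨Ct, ht⟩ := t3 K
      refine ⟨2 * Cu + Ct + Cv, ?_⟩
      filter_upwards [hu, hv, ht, eventually_ge_atTop 1] with N hu hv ht hN d hd p hp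
      obtain ⟨⟨a1, a2, a3⟩, ⟨b1, b2, b3⟩, c1, c2, c3⟩ := hmem p hp
      obtain ⟨e1, f1, k1⟩ := hu d (hd.trans_le rR) p.1 (hball _ rR _ a3)
      obtain ⟨e2, f2, k2⟩ := hu d (hd.trans_le rR) p.2.1 (hball _ rR _ b3)
      obtain ⟨e4, f4, k4⟩ := ht d (hd.trans_le rT) p.2.2 (hball _ rT _ c3)
      obtain ⟨e3, f3, k3⟩ := hv d (hd.trans_le rS)
      refine ⟨e1 + e2 + e4 - e3, ?_, ?_⟩
      · calc ‖e1 + e2 + e4 - e3‖ ≤ ‖e1 + e2 + e4‖ + ‖e3‖ := norm_sub_le _ _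
          _ ≤ ‖e1‖ + ‖e2‖ + ‖e4‖ + ‖e3‖ :=
              add_le_add ((norm_add_le _ _).trans (add_le_add (norm_add_le _ _) le_rfl)) le_rfl
          _ ≤ Cu / (N : ℝ) ^ K + Cu / (N : ℝ) ^ K + Ct / (N : ℝ) ^ K + Cv / (N : ℝ) ^ K := by
              linarith
          _ = _ := by ring
      · rw [hT]
        simp only
        unfold tk
        rw [T_eq3 hN k1 k2 k4 k3, hw]
        unfold Th3
        congr 2
        congr 1
        simp only [sub_div, add_div, sum_sub_distrib, sum_add_distrib])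
  obtain ⟨κf, hκf, hfar⟩ := far_part3 hKB hr
  obtain ⟨rc2, hrc2, hcont2⟩ := cont_zero3 H hκf
  obtain ⟨ρ2, hρ2, l1, l2⟩ : ∃ ρ2 : ℝ, 0 < ρ2 ∧ ρ2 ≤ ρ1 ∧ ρ2 ≤ rc2 :=
    ⟨min ρ1 rc2, lt_min hρ1 hrc2, min_le_left _ _, min_le_right _ _⟩
  have hSS : Rl ρ2 ×ˢ Rl ρ2 ×ˢ Rl ρ2 ⊆ S := by
    rw [hS]
    intro p hp
    exact ⟨⟨lt_of_lt_of_le hp.1.1 l1, hp.1.2⟩, ⟨lt_of_lt_of_le hp.2.1.1 l1, hp.2.1.2⟩,
      ⟨lt_of_lt_of_le hp.2.2.1 l1, hp.2.2.2⟩⟩
  obtain ⟨B', hB'⟩ := hwB 0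
  obtain ⟨M, hM, hM0⟩ : ∃ M : ℝ, 32 * (BR + BR + BR + 2 * BS) / r0 ^ 2 ≤ M ∧ 0 < M :=
    ⟨max (32 * (BR + BR + BR + 2 * BS) / r0 ^ 2) 1, le_max_left _ _,
      lt_of_lt_of_le one_pos (le_max_right _ _)⟩
  refine ⟨ρ2, hρ2, l1.trans g1, A, Real.exp (-B') * (2 * π / M) ^ (1 / 2 : ℝ), by positivity,
    ?_, ?_⟩
  · intro K
    obtain ⟨C, hC⟩ := hA K
    refine ⟨C + 1, ?_⟩
    filter_upwards [hC, hfar, pow_exp hκf K, eventually_ge_atTop 1] with N n1 n2 n3 n4 p hp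
    have hpS := hSS hp
    obtain ⟨⟨a1, a2, a3⟩, ⟨b1, b2, b3⟩, c1, c2, c3⟩ := hmem p hpS
    have a4 := (real_of_Rl hp.1).2.2
    have b4 := (real_of_Rl hp.2.1).2.2
    have c4 := (real_of_Rl hp.2.2).2.2
    obtain ⟨d1, d2, d3⟩ := hcrit p hpS
    have hq : s p.1 p.2.1 p.2.2 = Th3 p (δs p) := by
      rw [H.scrit p.1 (hRl a2 a1) p.2.1 (hRl b2 b1) p.2.2 (hRl c2 c1), d1]
      rfl
    rw [kx_split3 s n4 p _ hq (r := r) (by linarith)]
    have k1 := n1 p hpS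
    rw [hT] at k1
    simp only at k1
    have hre : 2 * bet - κf ≤ (Th3 p (δs p)).re := by
      rw [← hq]
      have k := (hcont2 p.1 p.2.1 p.2.2 (a4.trans_le l2) (b4.trans_le l2) (c4.trans_le l2)).2
      have k2 := (Complex.abs_re_le_norm (s p.1 p.2.1 p.2.2 - ((2 * bet : ℝ) : ℂ))).trans k.le
      rw [Complex.sub_re, Complex.ofReal_re] at k2
      linarith [(abs_le.1 k2).1]
    have k2 := kx_far3 (κ := κf) n4 (r := r) hre (fun d => tk N d p) (by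
        intro d hd hdr
        have := n2 p.1.re p.2.1.re p.2.2.re (by linarith) (by linarith) (by linarith) d hd hdr
        rw [← a1, ← b1, ← c1] at this
        exact this)
    have hN0 : (0 : ℝ) < N := by exact_mod_cast n4
    have e : (C + 1) / (N : ℝ) ^ K = C / (N : ℝ) ^ K + 1 / (N : ℝ) ^ K := by ring
    rw [e]
    rw [add_sub_right_comm]
    refine (norm_add_le _ _).trans (add_le_add k1 (k2.trans n3))
  · intro p hp
    have hpS := hSS hp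
    obtain ⟨c1, c2, c3⟩ := hcrit p hpS
    rw [hA0 p hpS, norm_mul]
    have hδb : ((δs p : ℝ) : ℂ) ∈ ball (1 / 4 : ℂ) r0 := by
      rw [mem_ball, dist_eq_norm]
      have e : (((δs p : ℝ) : ℂ) - 1 / 4) = ((δs p - 1 / 4 : ℝ) : ℂ) := by push_cast; rfl
      rw [e, Complex.norm_real, Real.norm_eq_abs]
      linarith
    have k1 : Real.exp (-B') ≤ ‖Complex.exp (w 0 (p, (δs p : ℂ)))‖ := by
      rw [Complex.norm_exp]
      apply Real.exp_le_exp.2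
      have := (Complex.abs_re_le_norm _).trans (hB' p hpS _ hδb)
      linarith [(abs_le.1 this).1]
    have k2 := cauchy2 (z := ((δs p : ℝ) : ℂ)) hr0 (hThd p hpS) (hThB p hpS) (by
      have e : (((δs p : ℝ) : ℂ) - 1 / 4) = ((δs p - 1 / 4 : ℝ) : ℂ) := by push_cast; rfl
      rw [e, Complex.norm_real, Real.norm_eq_abs]
      exact c2)
    have k3 := hdd p hpS (δs p) (by linarith)
    set D := deriv (deriv (Th3 p)) ((δs p : ℝ) : ℂ) with hD
    have hD0 : 0 < ‖D‖ := by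
      have := (Complex.abs_re_le_norm D)
      have h6 : 1 ≤ |D.re| := by rw [le_abs]; right; linarith
      linarith
    have k4 : (2 * π / M) ^ (1 / 2 : ℝ) ≤ ‖(2 * (π : ℂ) / (-D)) ^ (1 / 2 : ℂ)‖ := by
      have e : (1 / 2 : ℂ) = (((1 / 2 : ℝ)) : ℂ) := by push_cast; rfl
      rw [e, Complex.norm_cpow_real, norm_div, norm_neg, norm_mul, Complex.norm_real]
      have e2 : ‖(2 : ℂ)‖ * ‖π‖ = 2 * π := by
        rw [Real.norm_eq_abs, abs_of_pos (by linarith)]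
        norm_num
      rw [e2]
      apply Real.rpow_le_rpow (by positivity) _ (by norm_num)
      apply div_le_div_of_nonneg_left (by positivity) hD0 (k2.trans hM)
    exact mul_le_mul k1 k4 (by positivity) (norm_nonneg _)

end Pool.Agent.Y304.PH
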