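import Pool.Agent.Y482.Ph.Defs
import Pool.Agent.Y674.CB.XL
import Pool.Agent.Y837.CB.Pot
import Pool.Agent.Y784.CB.CR
import Pool.Agent.Y288.CB.KB3
import Pool.Agent.Y105.CB.Rho

/-!
# The expansion of `XN` (task PH-XLX)

Model: `Pool.Agent.Y674.CB.XL`.
-/

set_option autoImplicit false

namespace Pool.Agent.Y304.PH

open Finset Filter Topology Metric
open Pool.Agent.W711.HT
open Pool.Agent.Y472
open Pool.Agent.Y481 (itI itN itG Sep wts cw LI LN)
open Pool.Agent.W719.AX (UX EXY Rl ig)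
open Pool.Agent.Y482.Ph
open Pool.Agent.Y674.CB
open scoped Real

/-! ### Iterated functionals are homogeneous -/

lemma lin_mul {Λ : (ℂ → ℂ) → ℂ} (hΛ : Sep.Lin Λ) {h : ℂ → ℂ} (hh : Differentiable ℂ h) (c : ℂ) :
    Λ (fun w => h w * c) = Λ h * c := by
  have h1 := hΛ Unit {()} (fun _ => c) (fun _ => h) (fun _ => hh)
  simp only [sum_singleton] at h1
  rw [mul_comm (Λ h) c, ← h1]
  congr 1
  funext w
  ring

lemma itG_smul {Λ : ℕ → (ℂ → ℂ) → ℂ} (hΛ : ∀ j, Sep.Lin (Λ j)) {n : ℕ} {f : (ℕ → ℂ) → ℂ}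
    (hf : Sep n f) (c : ℂ) {j : ℕ} (hj : j ≤ n) (ψ : ℕ → ℂ) :
    itG Λ j (fun ψ => c * f ψ) ψ = c * itG Λ j f ψ := by
  induction j generalizing ψ with
  | zero => rfl
  | succ j ih =>
    show Λ j (fun w => itG Λ j (fun ψ => c * f ψ) (Function.update ψ j w)) =
      c * Λ j (fun w => itG Λ j f (Function.update ψ j w))
    have h1 : (fun w => itG Λ j (fun ψ => c * f ψ) (Function.update ψ j w)) =
        fun w => itG Λ j f (Function.update ψ j w) * c := by
      funext w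
      rw [ih (by omega), mul_comm]
    rw [h1, lin_mul (hΛ j)
      ((Pool.Agent.Y481.itG_sep hΛ hf (by omega)).diff ψ j), mul_comm]

lemma itN_smul {r : ℕ → ℝ} {a : ℕ → ℤ} {N : ℕ} (hN : 1 ≤ N) {n : ℕ} {f : (ℕ → ℂ) → ℂ}
    (hf : Sep n f) (c : ℂ) {j : ℕ} (hj : j ≤ n) (ψ : ℕ → ℂ) :
    itN r a N j (fun ψ => c * f ψ) ψ = c * itN r a N j f ψ :=
  itG_smul (fun j => Pool.Agent.Y481.LN_lin (r j) (a j) hN) hf c hj ψ

lemma exp_small (m : ℕ) {κ : ℝ} (hκ : 0 < κ) (Cf : ℝ) :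
    ∀ᶠ N : ℕ in atTop, (N : ℝ) ^ m * (Cf * Real.exp (-(N * κ))) ≤ 1 := by
  have h1 : Tendsto (fun x : ℝ => x ^ m * Real.exp (-x)) atTop (𝓝 0) :=
    Real.tendsto_pow_mul_exp_neg_atTop_nhds_zero m
  have h2 : Tendsto (fun N : ℕ => (N : ℝ) * κ) atTop atTop :=
    tendsto_natCast_atTop_atTop.atTop_mul_const hκ
  have h3 := (h1.comp h2).mul_const (Cf / κ ^ m)
  rw [zero_mul] at h3
  filter_upwards [h3.eventually_le_const one_pos] with N hN
  refine le_trans (le_of_eq ?_) hN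
  simp only [Function.comp_apply]
  rw [mul_pow]
  field_simp

/-- XLX: expansion of `XN` -/
theorem xlx : S_XLX := by
  intro hWX hELX hLOC ρ₀ c C s dl hS hA k hk
  obtain ⟨ρ₂, A₂, hρ2, hKX⟩ := hA
  have hρ2p := hKX.hρ
  have hKB : S_KB3 := Pool.Agent.Y288.CB.kb3 Pool.Agent.Y288.CB.tb0 Pool.Agent.Y105.CB.rho
  obtain ⟨R₀, c₀, hR0, hR00, hc0, hP⟩ := Pool.Agent.Y837.CB.pot ρ₀ c C s dl hS
  obtain ⟨⟨ρs, hρs, hρs1, HK⟩, _⟩ := hKB
  obtain ⟨n, hn⟩ : ∃ n, n = 2 * k := ⟨_, rfl⟩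
  have hn2 : 2 ≤ n := by omega
  have hnR : (0 : ℝ) < n := by exact_mod_cast (by omega : 0 < n)
  obtain ⟨B₀, hB0, hPn⟩ := hP n hn2
  obtain ⟨R₁, hR1, hR10, hR1ρ⟩ : ∃ R₁ : ℝ, 0 < R₁ ∧ R₁ ≤ R₀ ∧ R₁ ≤ ρ₂ :=
    ⟨min R₀ ρ₂, lt_min hR0 hρ2p, min_le_left _ _, min_le_right _ _⟩
  have hPot : Pot (n + 1) R₁ c₀ B₀ bet (Sr s n) (Dr s n) := pot_mono hPn hR1 hR10
  have hbet : 0 < bet := hPot.hp
  obtain ⟨C₁, M₁, hC1, hM1, HCR⟩ := Pool.Agent.Y784.CB.cr (n + 1) R₁ c₀ B₀ bet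
  obtain ⟨M₂, hM2, HEL⟩ := hELX hLOC (n + 1) R₁ c₀ B₀ bet C₁ hC1
  have hc1 : 0 < c1 := by
    have := Real.pi_pos
    unfold c1
    positivity
  obtain ⟨r, hr⟩ : ∃ r : ℝ, r = R₁ / 8 := ⟨_, rfl⟩
  have hr0 : 0 < r := by rw [hr]; positivity
  obtain ⟨κ, hκ⟩ : ∃ κ : ℝ, κ = c1 * min r ρs ^ 2 := ⟨_, rfl⟩
  have hκ0 : 0 < κ := by
    rw [hκ]
    exact mul_pos hc1 (pow_pos (lt_min hr0 hρs) _)
  obtain ⟨τ, hτ, HKε⟩ := HK (κ / (4 * n)) (by positivity)
  have hρ0 := hS.hρ.1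
  obtain ⟨R₃, hR3, hs3⟩ : ∃ R₃ : ℝ, 0 < R₃ ∧ ∀ χ ∈ Rc R₃ R₃,
      ‖s 0 0 χ - ((2 * bet : ℝ) : ℂ)‖ ≤ κ / (8 * n) := by
    have hd : ContinuousAt (fun w => s 0 0 w) 0 :=
      (s_diff3 hS (rc_zero hρ0) (rc_zero hρ0) (rc_zero hρ0)).continuousAt
    rw [Metric.continuousAt_iff] at hd
    obtain ⟨δ, hδ, hδ2⟩ := hd (κ / (8 * n)) (by positivity)
    refine ⟨δ / 2, by positivity, fun χ hχ => ?_⟩
    have h1 : dist χ 0 < δ := by
      rw [dist_zero_right]
      have h2 := Complex.norm_le_abs_re_add_abs_im χ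
      have h3 := hχ.1
      have h4 := hχ.2
      linarith
    have h2 := hδ2 h1
    rw [dist_eq_norm, hS.zero] at h2
    exact h2.le
  -- the radius
  obtain ⟨R, hR, hRR1, hRR3, hRτ, hR_1, hRπ⟩ : ∃ R : ℝ, 0 < R ∧ R ≤ R₁ / 4 ∧ R ≤ R₃ / 2 ∧ R ≤ τ ∧
      R ≤ 1 ∧ R ≤ ρ₀ := by
    refine ⟨min (min (R₁ / 4) (R₃ / 2)) (min τ (min 1 ρ₀)), ?_, ?_, ?_, ?_, ?_, ?_⟩
    · exact lt_min (lt_min (by positivity) (by positivity)) (lt_min hτ (lt_min one_pos hρ0))
    · exact (min_le_left _ _).trans (min_le_left _ _)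
    · exact (min_le_left _ _).trans (min_le_right _ _)
    · exact (min_le_right _ _).trans (min_le_left _ _)
    · exact (min_le_right _ _).trans ((min_le_right _ _).trans (min_le_left _ _))
    · exact (min_le_right _ _).trans ((min_le_right _ _).trans (min_le_right _ _))
  refine ⟨R, c₀ / 2, hR, hR_1, hRπ, by positivity, B₀ + n * C₁, n * C₁,
    M₁ + M₂ + 1 + 10 * C₁ + 4 * C₁ / R + 8 * n * C₁ / κ, by positivity, by positivity,
    by positivity, ?_⟩
  obtain ⟨M, hM⟩ : ∃ M : ℝ, M = M₁ + M₂ + 1 + 10 * C₁ + 4 * C₁ / R + 8 * n * C₁ / κ := ⟨_, rfl⟩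
  rw [← hM]
  have p1 : 0 < 4 * C₁ / R := by positivity
  have p2 : 0 < 8 * n * C₁ / κ := by positivity
  have hM_1 : M₁ ≤ M := by rw [hM]; linarith
  have hM_2 : M₂ ≤ M := by rw [hM]; linarith
  have hM_3 : 1 ≤ M := by rw [hM]; linarith
  have hM_4 : 10 * C₁ ≤ M := by rw [hM]; linarith
  have hM_5 : 4 * C₁ / R ≤ M := by rw [hM]; linarith
  have hM_6 : 8 * n * C₁ / κ ≤ M := by rw [hM]; linarith
  have hM0 : 0 < M := by linarith
  intro ls hls hlsM
  -- the weights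
  have hcw : ∀ i < n, M ≤ |(cw ls i : ℝ)| := fun i hi => cw_bound hlsM (by rw [hls]; omega)
  obtain ⟨a, ha⟩ : ∃ a : ℕ → ℤ, a = fun i => if i < n then cw ls i else ⌈M⌉ := ⟨_, rfl⟩
  have ha1 : ∀ i < n, a i = cw ls i := fun i hi => by rw [ha]; exact if_pos hi
  have ha2 : ∀ i < n + 1, M ≤ |(a i : ℝ)| := by
    intro i hi
    by_cases h : i < n
    · rw [ha1 i h]; exact hcw i h
    · rw [ha]
      simp only [if_neg h]
      exact (Int.le_ceil M).trans (le_abs_self _)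
  have haC : ∀ i < n, C₁ / |(a i : ℝ)| ≤ C₁ / M := fun i hi =>
    div_le_div_of_nonneg_left hC1.le hM0 (ha2 i (by omega))
  have hCM1 : C₁ / M ≤ 1 / 10 := by
    rw [div_le_div_iff₀ hM0 (by norm_num)]
    linarith
  have hCM2 : C₁ / M ≤ R / 4 := by
    rw [div_le_iff₀ hR] at hM_5
    rw [div_le_div_iff₀ hM0 (by norm_num)]
    linarith
  have hCM3 : n * (C₁ / M) ≤ κ / 8 := by
    rw [div_le_iff₀ hκ0] at hM_6
    rw [← mul_div_assoc, div_le_div_iff₀ hM0 (by norm_num)]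
    linarith
  obtain ⟨zz, hz⟩ := HCR (Sr s n) (Dr s n) hPot a fun i hi => hM_1.trans (ha2 i hi)
  obtain ⟨A, cA, hcA, hUX, hAnz, hAd⟩ := HEL (Sr s n) (Dr s n) hPot a
    (fun i hi => hM_2.trans (ha2 i hi)) zz hz
    (fun N ψ => (Real.sqrt N : ℂ) ^ n * Wk n N (ψ n) ψ)
    (fun N => (Sep.const _).mul (fW_sep (by omega) N))
    (fun r hr hr2 => hWX ρ₀ c C s dl hS ρ₂ A₂ hρ2 hKX n hn2 r hr (by linarith)) n (by omega)
    R hR (by linarith)
  -- the function
  obtain ⟨up, hup⟩ : ∃ up : ℂ → ℕ → ℂ, up = fun χ => Function.update (0 : ℕ → ℂ) n χ := ⟨_, rfl⟩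
  have hupn : ∀ χ, up χ n = χ := fun χ => by rw [hup]; exact Function.update_self _ _ _
  have hupi : ∀ χ, ∀ i, i ≠ n → up χ i = 0 := fun χ i hi => by
    rw [hup]; exact Function.update_of_ne hi _ _
  have hupu : ∀ χ w, Function.update (up χ) n w = up w := fun χ w => by
    rw [hup]; exact Function.update_idem _ _ _
  have hupB : ∀ χ ∈ Rc (R₁ / 2) (R₁ / 2), up χ ∈ Bx (n + 1) (R₁ / 2) := by
    intro χ hχ i hi
    by_cases h : i = n
    · rw [h, hupn]; exact hχ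
    · rw [hupi χ i h]; exact rc_zero (by positivity)
  have hyn : ∀ χ ∈ Rc (R₁ / 2) (R₁ / 2), zz n (up χ) n = χ := fun χ hχ => by
    rw [hz.rest n (by omega) (up χ) (hupB χ hχ) n le_rfl, hupn]
  have hysm : ∀ χ ∈ Rc (R₁ / 2) (R₁ / 2), ∀ i < n, ‖zz n (up χ) i‖ ≤ C₁ / M := fun χ hχ i hi =>
    (hz.sm n (by omega) (up χ) (hupB χ hχ) i hi).1.trans (haC i hi)
  have hR1ρ0 : R₁ ≤ ρ₀ := hR1ρ.trans hρ2
  have hyB : ∀ χ ∈ Rc (R₁ / 2) (R₁ / 2), ∀ i < n + 1, zz n (up χ) i ∈ Rc ρ₀ ρ₀ := by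
    intro χ hχ i hi
    by_cases h : i = n
    · rw [h, hyn χ hχ]
      exact rc_mono (by linarith) hχ
    · exact rc_norm ((hysm χ hχ i (by omega)).trans_lt (by linarith))
  obtain ⟨G, hG⟩ : ∃ G : ℂ → ℂ, G = fun χ => Uj (Sr s n) a n (zz n (up χ)) := ⟨_, rfl⟩
  have hGd : ∀ χ ∈ Rc (R₁ / 2) (R₁ / 2), HasDerivAt G (Dr s n n (zz n (up χ))) χ := by
    intro χ hχ
    have h := hz.der n (by omega) (up χ) (hupB χ hχ) n le_rfl (by omega)
    simp only [hupu, hupn] at h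
    rw [hG]
    exact h
  have hopen := rc_open (R₁ / 2) (R₁ / 2)
  have hsub : Rc R R ⊆ Rc (R₁ / 2) (R₁ / 2) := rc_mono (by linarith)
  have hclose : ∀ χ ∈ Rc (R₁ / 2) (R₁ / 2), ∀ m : ℝ, 0 < m → (∀ i < n, m ≤ |(a i : ℝ)|) →
      ‖G χ - n * s 0 0 χ‖ ≤ n * C₁ / m := by
    intro χ hχ m hm0 hm
    have h := (hz.close n (by omega) (up χ) (hupB χ hχ)).1
    have e1 : Sr s n (fun i => if i < n then 0 else up χ i) = n * s 0 0 χ := by
      unfold Sr
      have : ∀ j ∈ range n, s ((fun i => if i < n then 0 else up χ i) j)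
          ((fun i => if i < n then 0 else up χ i) ((j + 1) % n))
          ((fun i => if i < n then 0 else up χ i) n) = s 0 0 χ := by
        intro j hj
        rw [mem_range] at hj
        simp only [if_pos hj, if_pos (Nat.mod_lt (j + 1) (by omega : 0 < n)), lt_irrefl, if_false,
          hupn]
      rw [sum_congr rfl this, sum_const, card_range, nsmul_eq_mul]
    rw [e1] at h
    have e2 : ∑ i ∈ range n, C₁ / |(a i : ℝ)| ≤ ∑ _i ∈ range n, C₁ / m :=
      sum_le_sum fun i hi => div_le_div_of_nonneg_left hC1.le hm0 (hm i (mem_range.1 hi))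
    rw [sum_const, card_range, nsmul_eq_mul, ← mul_div_assoc] at e2
    have e3 : G χ = Uj (Sr s n) a n (zz n (up χ)) := by rw [hG]
    rw [e3]
    exact h.trans e2
  have hpos : ∀ χ ∈ Rc (R₁ / 2) (R₁ / 2), bet / 2 ≤ (G χ).re := by
    intro χ hχ
    rw [hG]
    exact (hz.close n (by omega) (up χ) (hupB χ hχ)).2
  have hzer : Sr s n (up 0) = ((4 * k * bet : ℝ) : ℂ) := by
    unfold Sr
    have : ∀ j ∈ range n, s (up 0 j) (up 0 ((j + 1) % n)) (up 0 n) = ((2 * bet : ℝ) : ℂ) := by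
      intro j hj
      rw [mem_range] at hj
      rw [hupi 0 j (by omega), hupi 0 _ (Nat.mod_lt (j + 1) (by omega : 0 < n)).ne, hupn, hS.zero]
    rw [sum_congr rfl this, sum_const, card_range, nsmul_eq_mul, hn]
    push_cast
    ring
  -- the far part
  obtain ⟨Cf, hCf, hfar⟩ := Pool.Agent.Y481.far_part n (cw ls)
  have hr_π : r ≤ π := by
    have := Real.pi_gt_three
    have := hPot.hR.2
    rw [hr]; linarith
  have hRe : ∀ χ ∈ Rc R₃ R₃, χ ∈ Rc (R₁ / 2) (R₁ / 2) → 2 * n * bet - κ / 4 ≤ (G χ).re := by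
    intro χ hχ3 hχ
    have h1 := hclose χ hχ M hM0 (fun i hi => ha2 i (by omega))
    rw [mul_div_assoc] at h1
    have h2 := hs3 χ hχ3
    have h3 : ‖(n : ℂ) * s 0 0 χ - n * ((2 * bet : ℝ) : ℂ)‖ ≤ κ / 8 := by
      rw [← mul_sub, norm_mul, Complex.norm_natCast]
      calc (n : ℝ) * ‖s 0 0 χ - ((2 * bet : ℝ) : ℂ)‖ ≤ n * (κ / (8 * n)) :=
            mul_le_mul_of_nonneg_left h2 hnR.le
        _ = κ / 8 := by field_simp
    have h4 : ‖G χ - n * ((2 * bet : ℝ) : ℂ)‖ ≤ κ / 4 := by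
      have := norm_add_le (G χ - n * s 0 0 χ) ((n : ℂ) * s 0 0 χ - n * ((2 * bet : ℝ) : ℂ))
      rw [sub_add_sub_cancel] at this
      linarith
    have h5 := (Complex.abs_re_le_norm _).trans h4
    have h6 : (G χ - n * ((2 * bet : ℝ) : ℂ)).re = (G χ).re - 2 * n * bet := by
      rw [Complex.sub_re, ← Complex.ofReal_natCast, ← Complex.ofReal_mul, Complex.ofReal_re]
      ring
    rw [h6, abs_le] at h5
    linarith
  have hfarb : ∀ᶠ N : ℕ in atTop, ∀ χ : ℂ, |χ.re| ≤ R → |χ.im| ≤ R →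
      ‖XN ls N χ - itN (fun _ => R₁ / 8) a N n (fW n N) (up χ)‖ ≤
        Cf * Real.exp (N * (2 * n * bet - κ + κ / 4)) := by
    have e1 : ∀ᶠ N : ℕ in atTop, 1 / (N : ℝ) ≤ τ :=
      (tendsto_one_div_atTop_nhds_zero_nat).eventually_le_const hτ
    filter_upwards [hfar (fun _ => r) (fun _ _ => ⟨hr0, hr_π⟩), HKε, e1, eventually_ge_atTop 1] with
      N h1 h2 h3 h4 χ hχ1 hχ2
    have hN : (0 : ℝ) < N := by exact_mod_cast h4
    have h5 := h1 (Wk n N χ) (Real.exp (N * (2 * n * bet - κ + κ / 4))) (Real.exp_pos _).le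
      (Wk_sep (by omega) N χ) (by
        rintro ψ hψ ⟨j, hj, hj2⟩
        unfold Wk
        rw [norm_prod]
        have hb : ∀ i ∈ range n, ‖kh N (ψ i) (ψ ((i + 1) % n)) χ‖ ≤
            Real.exp (N * (2 * bet + κ / (4 * n) - if i = j then κ else 0)) := by
          intro i hi
          rw [mem_range] at hi
          have hi2 : (i + 1) % n < n := Nat.mod_lt _ (by omega)
          have hχπ : |χ.re| ≤ π := by
            have := Real.pi_gt_three
            linarith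
          refine (h2 (ψ i) (ψ ((i + 1) % n)) χ (hψ i hi).1 ((hψ i hi).2.trans h3) (hψ _ hi2).1
            ((hψ _ hi2).2.trans h3) hχπ (hχ2.trans hRτ)).trans ?_
          apply Real.exp_le_exp.2
          refine mul_le_mul_of_nonneg_left ?_ hN.le
          have q1 : 0 ≤ c1 * min |(ψ ((i + 1) % n)).re| ρs ^ 2 := by positivity
          have q2 : 0 ≤ c1 * min |χ.re| ρs ^ 2 := by positivity
          have q3 : (if i = j then κ else 0) ≤ c1 * min |(ψ i).re| ρs ^ 2 := by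
            split_ifs with hij
            · rw [hκ, hij]
              refine mul_le_mul_of_nonneg_left ?_ hc1.le
              exact pow_le_pow_left₀ (lt_min hr0 hρs).le (min_le_min_right _ hj2) 2
            · positivity
          linarith
        refine (prod_le_prod (fun _ _ => norm_nonneg _) hb).trans ?_
        rw [← Real.exp_sum, ← mul_sum]
        apply Real.exp_le_exp.2
        refine mul_le_mul_of_nonneg_left ?_ hN.le
        rw [sum_sub_distrib, sum_const, card_range, sum_ite_eq', if_pos (mem_range.2 hj),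
          nsmul_eq_mul]
        have : (n : ℝ) * (2 * bet + κ / (4 * n)) = 2 * n * bet + κ / 4 := by field_simp
        rw [this]
        linarith)
    have e2 : XN ls N χ = itI (cw ls) N n (Wk n N χ) 0 := by
      unfold XN
      rw [hls, ← hn]
    have e3 : itN (fun _ => R₁ / 8) a N n (fW n N) (up χ) =
        itN (fun _ => r) (cw ls) N n (Wk n N χ) 0 := by
      unfold itN
      refine itG_congr (χ := χ) (fun j hj => ?_) (fun ψ ψ' => fW_eq ψ ψ') n le_rfl (up χ) 0 (hupn χ)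
        fun i hi => hupi χ i (by omega)
      rw [ha1 j hj, hr]
    rw [e2, e3]
    exact h5
  -- the expansion
  have hupB' : ∀ χ ∈ Rc R R, up χ ∈ Bx (n + 1) R := by
    intro χ hχ i hi
    by_cases h : i = n
    · rw [h, hupn]; exact hχ
    · rw [hupi χ i h]; exact rc_zero hR
  have hmain : ∀ N : ℕ, 1 ≤ N → ∀ χ : ℂ,
      (Real.sqrt N : ℂ) ^ n * (-1) ^ (N * n) * itN (fun _ => R₁ / 8) a N n
        (fun ψ => (Real.sqrt N : ℂ) ^ n * Wk n N (ψ n) ψ) (up χ) =
      (N : ℂ) ^ (2 * k) * itN (fun _ => R₁ / 8) a N n (fW n N) (up χ) := by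
    intro N hN χ
    have h1 := itN_smul (r := fun _ => R₁ / 8) (a := a) hN (fW_sep (n := n) (by omega) N)
      ((Real.sqrt N : ℂ) ^ n) (j := n) (by omega) (up χ)
    have h2 : (fun ψ : ℕ → ℂ => (Real.sqrt N : ℂ) ^ n * Wk n N (ψ n) ψ) =
        fun ψ => (Real.sqrt N : ℂ) ^ n * fW n N ψ := rfl
    rw [h2, h1]
    have h3 : ((-1 : ℂ)) ^ (N * n) = 1 := by
      rw [hn, show N * (2 * k) = 2 * (N * k) by ring, pow_mul]
      norm_num
    have h4 : (Real.sqrt N : ℂ) ^ n * (Real.sqrt N : ℂ) ^ n = (N : ℂ) ^ (2 * k) := by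
      rw [← mul_pow, ← Complex.ofReal_mul, Real.mul_self_sqrt (Nat.cast_nonneg N), ← hn]
      push_cast
      rfl
    rw [h3, mul_one, ← mul_assoc, h4]
  have hux : UX (fun N χ => Complex.exp (-(N * G χ)) * ((N : ℂ) ^ (2 * k) * XN ls N χ))
      (fun k χ => A k (up χ)) (Rc R R) := by
    intro K
    obtain ⟨CK, hCK⟩ := hUX K
    refine ⟨CK + 1, ?_⟩
    filter_upwards [hCK, hfarb, exp_small (2 * k + K) (half_pos hκ0) Cf, eventually_ge_atTop 1] with
      N h1 h2 h3 h4 χ hχ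
    have hNp : (0 : ℝ) < N := by exact_mod_cast h4
    have e1 := h1 (up χ) (hupB' χ hχ)
    rw [hmain N h4 χ] at e1
    have e2 := h2 χ hχ.1.le hχ.2.le
    have e3 := hRe χ (rc_mono (by linarith) hχ) (hsub hχ)
    have e4 : G χ = Uj (Sr s n) a n (zz n (up χ)) := by rw [hG]
    rw [← e4] at e1
    have e5 : Complex.exp (-(N * G χ)) * ((N : ℂ) ^ (2 * k) * XN ls N χ) -
        ∑ k ∈ range K, A k (up χ) / (N : ℂ) ^ k =
      (Complex.exp (-(N * G χ)) * ((N : ℂ) ^ (2 * k) * itN (fun _ => R₁ / 8) a N n (fW n N) (up χ)) -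
        ∑ k ∈ range K, A k (up χ) / (N : ℂ) ^ k) +
      Complex.exp (-(N * G χ)) * (N : ℂ) ^ (2 * k) *
        (XN ls N χ - itN (fun _ => R₁ / 8) a N n (fW n N) (up χ)) := by ring
    rw [e5]
    refine (norm_add_le _ _).trans ?_
    have e6 : ‖Complex.exp (-(N * G χ)) * (N : ℂ) ^ (2 * k) *
        (XN ls N χ - itN (fun _ => R₁ / 8) a N n (fW n N) (up χ))‖ ≤ 1 / (N : ℝ) ^ K := by
      rw [norm_mul, norm_mul, norm_pow, Complex.norm_natCast, Complex.norm_exp]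
      have e7 : (-((N : ℂ) * G χ)).re = -(N * (G χ).re) := by
        rw [Complex.neg_re, ← Complex.ofReal_natCast, Complex.re_ofReal_mul]
      rw [e7, le_div_iff₀ (by positivity)]
      have e8 : Real.exp (-(N * (G χ).re)) ≤ Real.exp (-(N * (2 * n * bet - κ / 4))) := by
        apply Real.exp_le_exp.2
        have := mul_le_mul_of_nonneg_left e3 hNp.le
        linarith
      calc Real.exp (-(N * (G χ).re)) * (N : ℝ) ^ (2 * k) *
            ‖XN ls N χ - itN (fun _ => R₁ / 8) a N n (fW n N) (up χ)‖ * (N : ℝ) ^ K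
          ≤ Real.exp (-(N * (2 * n * bet - κ / 4))) * (N : ℝ) ^ (2 * k) *
            (Cf * Real.exp (N * (2 * n * bet - κ + κ / 4))) * (N : ℝ) ^ K := by
              gcongr
        _ = (N : ℝ) ^ (2 * k + K) * (Cf * (Real.exp (-(N * (2 * n * bet - κ / 4))) *
            Real.exp (N * (2 * n * bet - κ + κ / 4)))) := by
              rw [pow_add]; ring
        _ = (N : ℝ) ^ (2 * k + K) * (Cf * Real.exp (-(N * (κ / 2)))) := by
              rw [← Real.exp_add]
              congr 3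
              ring
        _ ≤ 1 := h3
    have e9 : CK / (N : ℝ) ^ K + 1 / (N : ℝ) ^ K = (CK + 1) / (N : ℝ) ^ K := by ring
    rw [← e9]
    exact add_le_add e1 e6
  have hGeq : ∀ χ, G χ = Uj (Sr s n) a n (zz n (up χ)) := fun χ => by rw [hG]
  refine ⟨G, fun χ => zz n (up χ), fun k χ => A k (up χ), ?_, ?_, ?_, ⟨hux, ?_, ?_⟩, ?_, ?_⟩
  · intro χ hχ
    exact (hGd χ (hsub hχ)).differentiableAt.differentiableWithinAt
  · intro χ hχ
    have h := hz.ev n (by omega) (up χ) (hupB χ (hsub hχ)) n le_rfl (by omega)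
    rw [hupu, hupn] at h
    rw [hGeq, hGeq, h]
  · intro χ hχ
    refine ⟨?_, ?_, hpos χ (hsub hχ)⟩
    · have h1 := (hz.close n (by omega) (up χ) (hupB χ (hsub hχ))).1
      rw [← hGeq] at h1
      have h2 : ∑ i ∈ range n, C₁ / |(a i : ℝ)| ≤ ∑ _i ∈ range n, C₁ := by
        refine sum_le_sum fun i hi => ?_
        refine div_le_self hC1.le ?_
        exact hM_3.trans (ha2 i (by have := mem_range.1 hi; omega))
      rw [sum_const, card_range, nsmul_eq_mul] at h2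
      have h3 : (fun i => if i < n then 0 else up χ i) ∈ Bx (n + 1) R₁ := by
        intro i hi
        by_cases h : i < n
        · simp only [if_pos h]; exact rc_zero hR1
        · simp only [if_neg h]
          have : i = n := by omega
          rw [this, hupn]
          exact rc_mono (by linarith) hχ
      have h4 := (hPot.bd _ h3).1
      have h5 := norm_le_insert' (G χ) (Sr s n (fun i => if i < n then 0 else up χ i))
      linarith
    · have h := hz.conc n (by omega) (up χ) (hupB χ (hsub hχ)) n le_rfl (by omega)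
      simp only [hupu, hupn] at h
      have e : deriv G =ᶠ[𝓝 χ] fun w => Dr s n n (zz n (up w)) := by
        filter_upwards [hopen.mem_nhds (hsub hχ)] with w hw
        exact (hGd w hw).deriv
      rw [e.deriv_eq]
      linarith
  · intro k
    have h := hAd k (up 0) (hupB' 0 (rc_zero hR)) n (by omega)
    simp only [hupu] at h
    exact h
  · intro χ hχ h0
    have h := hAnz (up χ) (hupB' χ hχ)
    rw [h0, norm_zero] at h
    linarith
  · intro χ hχ
    have hχ1 := hsub hχ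
    have hn' : ∀ j < 2 * k, j < n := fun j hj => by omega
    refine ⟨?_, ?_, ?_⟩
    · intro j hj
      rw [← hn] at hj ⊢
      have hs1 := hysm χ hχ1 j hj
      have hi : (j + 1) % n < n := Nat.mod_lt _ (by omega)
      refine ⟨rc_norm (hs1.trans_lt (by linarith)), ?_, hs1.trans hCM1, ?_⟩
      · have h := (hz.sm n (by omega) (up χ) (hupB χ hχ1) j hj).2.2.2
        refine lt_of_lt_of_le ?_ h
        have h0 : (a j : ℝ) ≠ 0 := by
          intro h0
          have := ha2 j (by omega)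
          rw [h0, abs_zero] at this
          linarith
        positivity
      · have h := hz.crit n (by omega) (up χ) (hupB χ hχ1) ((j + 1) % n) hi
        rw [Dr_mid hS hn2 (hyB χ hχ1) hj, hyn χ hχ1, ha1 _ hi] at h
        rw [add_assoc]
        exact h
    · rw [(hGd χ hχ1).deriv, Dr_last hS (by omega) (hyB χ hχ1), hyn χ hχ1, hn]
    · rw [hGeq]
      unfold Uj Sr
      rw [hyn χ hχ1, ← sum_add_distrib, hn]
      refine sum_congr rfl fun j hj => ?_
      rw [mem_range] at hj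
      rw [← hn] at hj ⊢
      rw [ha1 j hj]
      ring
  · intro m hm hm0
    have h := hclose 0 (rc_zero (by positivity)) m hm0 fun i hi => by
      rw [ha1 i hi]
      exact cw_bound hm (by rw [hls]; omega)
    have e : (n : ℂ) * s 0 0 0 = ((4 * k * bet : ℝ) : ℂ) := by
      rw [hS.zero, hn]
      push_cast
      ring
    rw [e] at h
    exact h

end Pool.Agent.Y304.PH
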